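import Pool.Agent.H39.EAG.Targets

set_option autoImplicit false

open Finset Filter Topology Pool.Agent.H39.EAG

namespace Pool.Agent.H68.EAG

theorem col_mono {V : Type} {G : SimpleGraph V} {S : Finset V} {k l : ℕ} (h : Col G S k)
    (hkl : k ≤ l) : Col G S l := by
  obtain ⟨c, hc, hadj⟩ := h
  exact ⟨c, fun v hv => (hc v hv).trans_le hkl, hadj⟩

theorem col_card {V : Type} [Fintype V] (G : SimpleGraph V) (S : Finset V) :
    Col G S (Fintype.card V) := by
  refine ⟨fun v => (Fintype.equivFin V v : ℕ), fun v _ => (Fintype.equivFin V v).isLt, ?_⟩
  intro u _ v _ huv h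
  have h1 : Fintype.equivFin V u = Fintype.equivFin V v := Fin.ext h
  exact huv.ne ((Fintype.equivFin V).injective h1)

theorem col_iff {V : Type} [Fintype V] (G : SimpleGraph V) (S : Finset V) (k : ℕ) :
    Col G S k ↔ chi G S ≤ k := by
  constructor
  · intro h
    exact Nat.sInf_le h
  · intro h
    have hne : {k | Col G S k}.Nonempty := ⟨_, col_card G S⟩
    have h1 : Col G S (chi G S) := Nat.sInf_mem hne
    exact col_mono h1 h

theorem pf_CHA : T_CHA := by
  intro V _ _ G
  refine ⟨fun S k => col_iff G S k, ?_, ?_, ?_, ?_⟩
  · have h : Col G ∅ 0 := ⟨fun _ => 0, by simp, by simp⟩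
    have := (col_iff G ∅ 0).1 h
    omega
  · intro S T hST
    obtain ⟨c, hc, hadj⟩ := (col_iff G T (chi G T)).2 le_rfl
    exact (col_iff G S _).1 ⟨c, fun v hv => hc v (hST hv),
      fun u hu v hv huv => hadj u (hST hu) v (hST hv) huv⟩
  · intro S T
    obtain ⟨c, hc, hadj⟩ := (col_iff G S (chi G S)).2 le_rfl
    obtain ⟨d, hd, hdadj⟩ := (col_iff G T (chi G T)).2 le_rfl
    refine (col_iff G (S ∪ T) _).1 ⟨fun v => if v ∈ S then c v else chi G S + d v, ?_, ?_⟩
    · intro v hv
      by_cases h : v ∈ S
      · have := hc v h
        simp only [h, if_true]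
        omega
      · have hT : v ∈ T := by
          rcases Finset.mem_union.1 hv with h' | h'
          · exact absurd h' h
          · exact h'
        have := hd v hT
        simp only [h, if_false]
        omega
    · intro u hu v hv huv
      by_cases h : u ∈ S
      · by_cases h' : v ∈ S
        · simp only [h, h', if_true]
          exact hadj u h v h' huv
        · have := hc u h
          simp only [h, h', if_true, if_false]
          omega
      · by_cases h' : v ∈ S
        · have := hc v h'
          simp only [h, h', if_true, if_false]
          omega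
        · have hT : u ∈ T := by
            rcases Finset.mem_union.1 hu with h'' | h''
            · exact absurd h'' h
            · exact h''
          have hT' : v ∈ T := by
            rcases Finset.mem_union.1 hv with h'' | h''
            · exact absurd h'' h'
            · exact h''
          have := hdadj u hT v hT' huv
          simp only [h, h', if_false]
          omega
  · intro I hI
    refine (col_iff G I 1).1 ⟨fun _ => 0, fun _ _ => Nat.zero_lt_one, ?_⟩
    intro u hu v hv huv
    exact absurd huv (hI u hu v hv)

end Pool.Agent.H68.EAG
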