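import Pool.Agent.H39.EAG.Targets

set_option autoImplicit false

open Finset Filter Topology Pool.Agent.H39.EAG

namespace Pool.Agent.H68.EAG

theorem chb_ind_single {V : Type} (G : SimpleGraph V) (v : V) : Ind G {v} := by
  intro u hu w hw
  rw [Finset.mem_singleton] at hu hw
  subst hu; subst hw
  exact G.loopless.irrefl _

theorem pf_CHB (h : T_CHA) : T_CHB := by
  intro V _ _ G
  obtain ⟨hcol, hemp, hmono, hun, hind⟩ := h V G
  have hins : ∀ (S : Finset V) v, chi G (insert v S) ≤ chi G S + 1 := by
    intro S v
    have h1 := hun {v} S
    have h2 := hind {v} (chb_ind_single G v)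
    have h3 : insert v S = {v} ∪ S := rfl
    rw [h3]
    omega
  refine ⟨hins, ?_, ?_, ?_⟩
  · intro S
    induction S using Finset.induction_on with
    | empty =>
      intro k hk
      refine ⟨∅, subset_rfl, ?_⟩
      omega
    | insert v S0 hv ih =>
      intro k hk
      by_cases hle : k ≤ chi G S0
      · obtain ⟨T, hT, hTk⟩ := ih k hle
        exact ⟨T, hT.trans (Finset.subset_insert _ _), hTk⟩
      · refine ⟨insert v S0, subset_rfl, ?_⟩
        have := hins S0 v
        omega
  · intro S x hx hadj
    refine le_antisymm (hins S x) ?_
    obtain ⟨c, hc, hcadj⟩ := (hcol (insert x S) _).2 le_rfl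
    have hcx : c x < chi G (insert x S) := hc x (Finset.mem_insert_self x S)
    have hne : ∀ y ∈ S, c x ≠ c y := fun y hy =>
      hcadj x (Finset.mem_insert_self x S) y (Finset.mem_insert_of_mem hy) (hadj y hy)
    have h1 : Col G S (chi G (insert x S) - 1) := by
      refine ⟨fun v => if c x < c v then c v - 1 else c v, ?_, ?_⟩
      · intro v hv
        have h2 := hc v (Finset.mem_insert_of_mem hv)
        have h3 := hne v hv
        by_cases h4 : c x < c v
        · simp only [h4, if_true]
          omega
        · simp only [h4, if_false]
          omega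
      · intro u hu v hv huv
        have h2 := hcadj u (Finset.mem_insert_of_mem hu) v (Finset.mem_insert_of_mem hv) huv
        have h3 := hne u hu
        have h4 := hne v hv
        by_cases h5 : c x < c u <;> by_cases h6 : c x < c v <;>
          simp only [h5, h6, if_true, if_false] <;> omega
    have h2 := (hcol S _).1 h1
    omega
  · intro S K hK
    obtain ⟨c, hc, hcadj⟩ := (hcol S _).2 le_rfl
    have hmaps : ∀ v ∈ S, c v ∈ Finset.range (chi G S) := fun v hv =>
      Finset.mem_range.2 (hc v hv)
    have h1 := Finset.card_le_mul_card_image_of_maps_to hmaps K (fun i _ => by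
      apply hK _ (Finset.filter_subset _ _)
      intro u hu v hv huv
      rw [Finset.mem_filter] at hu hv
      exact hcadj u hu.1 v hv.1 huv (hu.2.trans hv.2.symm))
    rw [Finset.card_range, mul_comm] at h1
    exact h1

end Pool.Agent.H68.EAG
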