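import Pool.Agent.H39.EAG.Targets

set_option autoImplicit false

open Finset Filter Topology Pool.Agent.H39.EAG

namespace Pool.Agent.H68.EAG

theorem nm2_clog : Tendsto (fun n : ℕ => Nat.clog 2 n) atTop atTop := by
  refine tendsto_atTop.2 fun b => ?_
  filter_upwards [eventually_ge_atTop (2 ^ b)] with n hn
  have h1 : (2 : ℕ) ^ b ≤ 2 ^ Nat.clog 2 n := hn.trans (Nat.le_pow_clog (by norm_num) n)
  exact (Nat.pow_le_pow_iff_right (by norm_num)).1 h1

theorem pf_NM2 : T_NM2 := by
  have h1 : Tendsto (fun n : ℕ => ((2 * Nat.clog 2 n + 1).factorial : ℝ)) atTop atTop := by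
    refine tendsto_atTop_mono (f := fun n : ℕ => ((Nat.clog 2 n : ℕ) : ℝ)) (fun n => ?_) ?_
    · have h2 : 2 * Nat.clog 2 n + 1 ≤ (2 * Nat.clog 2 n + 1).factorial := Nat.self_le_factorial _
      have h3 : Nat.clog 2 n ≤ (2 * Nat.clog 2 n + 1).factorial := by omega
      exact_mod_cast h3
    · exact tendsto_natCast_atTop_atTop.comp nm2_clog
  have h2 := h1.inv_tendsto_atTop
  refine h2.congr fun n => ?_
  simp [one_div]

end Pool.Agent.H68.EAG
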